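import Pool.Agent.W5h64.Crit

/-! Malcev algebras with a faithful representation: a sufficient criterion. -/

namespace Pool.Agent.Results.MP_754a42_al.Criterion

open Pool.Agent.W5h64.Mal

universe u v

/-- Over a field of characteristic zero, a Malcev algebra `A` (of any dimension) such that
the intersection of its centre, its Jacobian ideal `J(A)`, the ideal generated by `A²A²` and the
fifth power `A⁵` is zero has a faithful representation. In particular every metabelian Malcev
algebra and every Malcev algebra with `A⁵ = 0` has one. -/
theorem result (F : Type u) [Field F] [CharZero F] (A : Type v) [AddCommGroup A] [Module F A]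
    (m : A →ₗ[F] A →ₗ[F] A) (hm : IsMalcev m)
    (h0 : centre m ⊓ jacIdeal m ⊓ metIdeal m ⊓ fifthPower m = ⊥) :
    ∃ (V : Type (max u v)) (_ : AddCommGroup V) (_ : Module F V)
      (ρ : A →ₗ[F] Module.End F V), IsRep m ρ ∧ Function.Injective ρ :=
  criterion m hm h0

end Pool.Agent.Results.MP_754a42_al.Criterion
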