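import Pool.Agent.W5h64.Ex10

/-! A ten-dimensional nilpotent Malcev algebra without faithful representations. -/

namespace Pool.Agent.Results.MP_754a42_al.NoFaithful10

open Pool.Agent.W5h64.Mal

universe u w

/-- Over every field of characteristic zero there is a ten-dimensional Malcev algebra, all of
whose products of six elements vanish, which has no faithful representation at all (of finite or
infinite dimension), and for which the intersection of the centre, the Jacobian ideal, the ideal
generated by `A²A²` and `A⁵` is only one-dimensional. -/
theorem result (F : Type u) [Field F] [CharZero F] :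
    ∃ m : (Fin 10 → F) →ₗ[F] (Fin 10 → F) →ₗ[F] (Fin 10 → F), IsMalcev m ∧ SixZero m ∧
      Module.finrank F ↥(centre m ⊓ jacIdeal m ⊓ metIdeal m ⊓ fifthPower m) = 1 ∧
      ∀ (V : Type w) [AddCommGroup V] [Module F V]
        (ρ : (Fin 10 → F) →ₗ[F] Module.End F V), IsRep m ρ → ¬ Function.Injective ρ :=
  ⟨mul10 F, mul10_malcev F, six10, finrank10, fun _ _ _ ρ h => no_faithful10 ρ h⟩

end Pool.Agent.Results.MP_754a42_al.NoFaithful10
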